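import Mathlib

/-!
# A mixed cubic sum of Shapiro Catalan triangle numbers

`B n k = (k/n) C(2n, n-k)`. We prove the conjectured closed form of `∑ B(n,k)² B(m,k)` for all
`n, m ≥ 1`.
-/

set_option autoImplicit false

open Finset

namespace Pool.Agent.Results.MP_651eca_nt.ShapiroCubic

/-- Shapiro's Catalan triangle `B_{n,k} = (k/n) * binom(2n, n-k)` (used for `1 ≤ k ≤ n`) -/
def B (n k : ℕ) : ℚ := (k : ℚ) / n * ((2 * n).choose (n - k) : ℕ)

/-- `binom(2n, n+k)` as a rational number -/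
def c (n k : ℕ) : ℚ := ((2 * n).choose (n + k) : ℕ)

theorem c_out {n k : ℕ} (h : n < k) : c n k = 0 := by
  unfold c
  rw [Nat.choose_eq_zero_of_lt (by omega)]
  simp

/-- `(n+k+1) c(n,k+1) = (n-k) c(n,k)` -/
theorem c_succ (n k : ℕ) : ((n : ℚ) + k + 1) * c n (k + 1) = ((n : ℚ) - k) * c n k := by
  rcases lt_or_ge n k with h | h
  · rw [c_out h, c_out (by omega)]; ring
  · have h1 := Nat.choose_succ_right_eq (2 * n) (n + k)
    have h2 : ((2 * n).choose (n + k + 1) : ℚ) * ((n + k + 1 : ℕ) : ℚ) =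
        ((2 * n).choose (n + k) : ℚ) * ((2 * n - (n + k) : ℕ) : ℚ) := by
      exact_mod_cast h1
    rw [Nat.cast_sub (by omega)] at h2
    unfold c
    rw [← add_assoc]
    push_cast at h2 ⊢
    linear_combination h2

/-- `((n+1)² - k²) c(n+1,k) = (2n+2)(2n+1) c(n,k)` -/
theorem c_up (n k : ℕ) : (((n : ℚ) + 1) ^ 2 - (k : ℚ) ^ 2) * c (n + 1) k =
    (2 * n + 2) * (2 * n + 1) * c n k := by
  rcases lt_trichotomy k (n + 1) with h | h | h
  · have h1 := Nat.choose_mul_factorial_mul_factorial (n := 2 * n) (k := n + k) (by omega)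
    have h2 := Nat.choose_mul_factorial_mul_factorial (n := 2 * (n + 1)) (k := n + 1 + k) (by omega)
    have e1 : 2 * n - (n + k) = n - k := by omega
    have e2 : 2 * (n + 1) - (n + 1 + k) = n - k + 1 := by omega
    have e3 : (2 * (n + 1)).factorial = (2 * n + 2) * ((2 * n + 1) * (2 * n).factorial) := by
      rw [show 2 * (n + 1) = 2 * n + 1 + 1 by ring, Nat.factorial_succ, Nat.factorial_succ]
    have e4 : (n + 1 + k).factorial = (n + k + 1) * (n + k).factorial := by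
      rw [show n + 1 + k = n + k + 1 by ring, Nat.factorial_succ]
    rw [e1] at h1
    rw [e2, e3, e4, Nat.factorial_succ (n - k), ← h1] at h2
    have h3 : ((2 * (n + 1)).choose (n + 1 + k) : ℚ) * ((n + k + 1) * ((n + k).factorial : ℚ)) *
        ((((n - k : ℕ) : ℚ) + 1) * ((n - k).factorial : ℚ)) =
        (2 * n + 2) * ((2 * n + 1) * (((2 * n).choose (n + k) : ℚ) * ((n + k).factorial : ℚ) *
          ((n - k).factorial : ℚ))) := by
      exact_mod_cast h2
    rw [Nat.cast_sub (by omega)] at h3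
    have f1 : ((n + k).factorial : ℚ) ≠ 0 := by positivity
    have f2 : ((n - k).factorial : ℚ) ≠ 0 := by positivity
    unfold c
    apply mul_right_cancel₀ (mul_ne_zero f1 f2)
    linear_combination h3
  · subst h
    rw [c_out (n := n) (by omega)]
    push_cast
    ring
  · rw [c_out (n := n) (by omega), c_out (n := n + 1) (by omega)]
    ring

/-- the sum `∑ k³ c(n,k)² c(m,k)` -/
def T (n m : ℕ) : ℚ := ∑ k ∈ range (n + 1), (k : ℚ) ^ 3 * c n k ^ 2 * c m k

/-- the telescoping function -/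
def G (n m k : ℕ) : ℚ :=
  -(1 / 2) * (((n : ℚ) + 2 * m) * k * (k - 1) + n * m) * (n + k) ^ 2 * (m + k) * c n k ^ 2 * c m k

theorem G_succ (n m k : ℕ) : G n m (k + 1) =
    -(1 / 2) * (((n : ℚ) + 2 * m) * (k + 1) * k + n * m) * (n - k) ^ 2 * (m - k) * c n k ^ 2 *
      c m k := by
  have h1 := c_succ n k
  have h2 := c_succ m k
  unfold G
  push_cast
  have e : -(1 / 2) * (((n : ℚ) + 2 * m) * (k + 1) * (k + 1 - 1) + n * m) * (n + (k + 1)) ^ 2 *
      (m + (k + 1)) * c n (k + 1) ^ 2 * c m (k + 1) =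
      -(1 / 2) * (((n : ℚ) + 2 * m) * (k + 1) * k + n * m) *
      (((n : ℚ) + k + 1) * c n (k + 1)) ^ 2 * (((m : ℚ) + k + 1) * c m (k + 1)) := by ring
  rw [e, h1, h2]
  ring

theorem T_rec (n m : ℕ) : ((n : ℚ) + m + 1) ^ 2 * (n + 2 * m) * T n (m + 1) -
    (n + 2 * m + 2) * ((2 * m + 2) * (2 * m + 1)) * T n m =
    1 / 2 * n ^ 3 * (m + 1) ^ 2 * c n 0 ^ 2 * c (m + 1) 0 := by
  have h1 : ∑ k ∈ range (n + 1), (G n (m + 1) (k + 1) - G n (m + 1) k) =
      G n (m + 1) (n + 1) - G n (m + 1) 0 := sum_range_sub _ _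
  have h2 : G n (m + 1) (n + 1) = 0 := by
    rw [G_succ]; ring
  have h3 : G n (m + 1) 0 = -(1 / 2 * n ^ 3 * (m + 1) ^ 2 * c n 0 ^ 2 * c (m + 1) 0) := by
    unfold G; push_cast; ring
  have h4 : ∀ k : ℕ, G n (m + 1) (k + 1) - G n (m + 1) k =
      ((n : ℚ) + m + 1) ^ 2 * (n + 2 * m) * ((k : ℚ) ^ 3 * c n k ^ 2 * c (m + 1) k) -
    (n + 2 * m + 2) * ((2 * m + 2) * (2 * m + 1)) * ((k : ℚ) ^ 3 * c n k ^ 2 * c m k) := by
    intro k
    rw [G_succ]
    have h5 := c_up m k
    have e : (n + 2 * m + 2) * ((2 * m + 2) * (2 * m + 1)) * ((k : ℚ) ^ 3 * c n k ^ 2 * c m k) =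
        (n + 2 * m + 2) * ((k : ℚ) ^ 3 * c n k ^ 2) * ((2 * m + 2) * (2 * m + 1) * c m k) := by
      ring
    rw [e, ← h5]
    unfold G
    push_cast
    ring
  rw [sum_congr rfl fun k _ => h4 k, sum_sub_distrib, ← mul_sum, ← mul_sum, h2, h3] at h1
  unfold T
  rw [h1]
  ring

/-- central binomial coefficients -/
theorem c_zero_succ (m : ℕ) : ((m : ℚ) + 1) * c (m + 1) 0 = 2 * (2 * m + 1) * c m 0 := by
  have h := c_up m 0
  have h0 : ((m : ℚ) + 1) ≠ 0 := by positivity
  apply mul_left_cancel₀ h0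
  push_cast at h
  linear_combination h

/-- `P(n,m) = ∑_{j<m} C(n+j,n) C(n+j,n-1)` -/
def P (n m : ℕ) : ℚ := ∑ j ∈ range m, ((n + j).choose n : ℚ) * ((n + j).choose (n - 1) : ℚ)

theorem ch_up (n m : ℕ) : ((m : ℚ) + 1) * ((n + (m + 1)).choose n : ℚ) =
    (n + m + 1) * ((n + m).choose n : ℚ) := by
  have h := Nat.add_one_mul_choose_eq (n + m) m
  have e1 : (n + m + 1).choose (m + 1) = (n + (m + 1)).choose n := by
    rw [add_assoc]
    exact (Nat.choose_symm_add (a := n) (b := m + 1)).symm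
  have e2 : (n + m).choose m = (n + m).choose n :=
    (Nat.choose_symm_add (a := n) (b := m)).symm
  have h' : (n + m + 1) * (n + m).choose m = (n + m + 1).choose (m + 1) * (m + 1) := h
  rw [e1, e2] at h'
  have h3 : ((n : ℚ) + m + 1) * ((n + m).choose n : ℚ) =
      ((n + (m + 1)).choose n : ℚ) * ((m : ℚ) + 1) := by exact_mod_cast h'
  linear_combination -h3

/-- `(m+1) C(n+m, n-1) = n C(n+m, n)` for `n ≥ 1` -/
theorem ch_pred {n : ℕ} (hn : 1 ≤ n) (m : ℕ) : ((m : ℚ) + 1) * ((n + m).choose (n - 1) : ℚ) =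
    n * ((n + m).choose n : ℚ) := by
  obtain ⟨n, rfl⟩ : ∃ n', n = n' + 1 := ⟨n - 1, by omega⟩
  have h := Nat.choose_succ_right_eq (n + 1 + m) n
  have e1 : n + 1 + m - n = m + 1 := by omega
  rw [e1] at h
  have h3 : ((n + 1 + m).choose (n + 1) : ℚ) * ((n : ℚ) + 1) =
      ((n + 1 + m).choose n : ℚ) * ((m : ℚ) + 1) := by exact_mod_cast h
  simp only [Nat.add_sub_cancel]
  push_cast
  linear_combination -h3

theorem T_eq {n : ℕ} (hn : 1 ≤ n) (m : ℕ) : 2 * T n m * ((n + m).choose n : ℚ) ^ 2 =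
    n ^ 2 * c n 0 ^ 2 * c m 0 * (m * ((n + m).choose n : ℚ) ^ 2 - (n + 2 * m) * P n m) := by
  have hn0 : (0 : ℚ) < n := by exact_mod_cast hn
  induction m with
  | zero =>
    have h1 : T n 0 = 0 := by
      unfold T
      apply sum_eq_zero
      intro k _
      rcases Nat.eq_zero_or_pos k with h | h
      · subst h; simp
      · rw [c_out (n := 0) h]; ring
    rw [h1]
    simp [P]
  | succ m ih =>
    have hm0 : (0 : ℚ) ≤ m := Nat.cast_nonneg m
    have hT := T_rec n m
    have hP : P n (m + 1) = P n m + ((n + m).choose n : ℚ) * ((n + m).choose (n - 1) : ℚ) := by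
      unfold P; rw [sum_range_succ]
    have h1 := ch_up n m
    have h2 := ch_pred hn m
    have h3 := c_zero_succ m
    set A : ℚ := ((n + m).choose n : ℚ) with hA
    set A1 : ℚ := ((n + (m + 1)).choose n : ℚ) with hA1
    set D : ℚ := ((n + m).choose (n - 1) : ℚ) with hD
    have hm1 : (m : ℚ) + 1 ≠ 0 := by positivity
    have hA1' : A1 = (n + m + 1) * A / (m + 1) := by
      field_simp
      linear_combination h1
    have hD' : D = n * A / (m + 1) := by
      field_simp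
      linear_combination h2
    have hc' : c (m + 1) 0 = 2 * (2 * m + 1) * c m 0 / (m + 1) := by
      field_simp
      linear_combination h3
    have hk : ((n : ℚ) + 2 * m) ≠ 0 := by positivity
    rw [hc'] at hT
    have hT' : ((n : ℚ) + m + 1) ^ 2 * (n + 2 * m) * T n (m + 1) =
        (n + 2 * m + 2) * ((2 * m + 2) * (2 * m + 1)) * T n m +
        1 / 2 * n ^ 3 * (m + 1) ^ 2 * c n 0 ^ 2 * (2 * (2 * m + 1) * c m 0 / (m + 1)) := by
      linear_combination hT
    rw [hP, hA1', hD', hc']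
    apply mul_left_cancel₀ hk
    have e : ((n : ℚ) + 2 * m) * (2 * T n (m + 1) * ((n + m + 1) * A / (m + 1)) ^ 2) =
        2 * (((n : ℚ) + m + 1) ^ 2 * (n + 2 * m) * T n (m + 1)) * (A / (m + 1)) ^ 2 := by
      ring
    rw [e, hT']
    have e2 : 2 * (((n : ℚ) + 2 * m + 2) * ((2 * m + 2) * (2 * m + 1)) * T n m +
        1 / 2 * n ^ 3 * (m + 1) ^ 2 * c n 0 ^ 2 * (2 * (2 * m + 1) * c m 0 / (m + 1))) *
          (A / (m + 1)) ^ 2 =
        (((n : ℚ) + 2 * m + 2) * ((2 * m + 2) * (2 * m + 1)) * (2 * T n m * A ^ 2) +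
        n ^ 3 * (m + 1) ^ 2 * c n 0 ^ 2 * (2 * (2 * m + 1) * c m 0 / (m + 1)) * A ^ 2) /
          (m + 1) ^ 2 := by
      field_simp
    rw [e2, ih]
    push_cast
    field_simp
    ring

/-- `Q(n,m) = ∑_{j<n} C(m+j,m) C(n+j,n-1)` -/
def Q (n m : ℕ) : ℚ := ∑ j ∈ range n, ((m + j).choose m : ℚ) * ((n + j).choose (n - 1) : ℚ)

theorem ch_shift {n : ℕ} (hn : 1 ≤ n) (j : ℕ) : ((j : ℚ) + 2) * ((n + (j + 1)).choose (n - 1) : ℚ) =
    (n + j + 1) * ((n + j).choose (n - 1) : ℚ) := by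
  have h1 := ch_pred hn j
  have h2 := ch_pred hn (j + 1)
  have h3 := ch_up n j
  have h0 : ((j : ℚ) + 1) ≠ 0 := by positivity
  push_cast at h2
  apply mul_left_cancel₀ h0
  linear_combination ((j : ℚ) + 1) * h2 + (n : ℚ) * h3 - ((n : ℚ) + j + 1) * h1

theorem Q_rec {n : ℕ} (hn : 1 ≤ n) (m : ℕ) : ((n : ℚ) + m + 1) * Q n (m + 1) - m * Q n m =
    n * c n 0 * ((n + m).choose (n - 1) : ℚ) := by
  let g : ℕ → ℚ := fun j => (j : ℚ) * (j + 1) / (m + 1) * ((m + j).choose m : ℚ) *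
    ((n + j).choose (n - 1) : ℚ)
  have hm1 : (m : ℚ) + 1 ≠ 0 := by positivity
  have h1 : ∑ j ∈ range n, (g (j + 1) - g j) = g n - g 0 := sum_range_sub _ _
  have hg0 : g 0 = 0 := by simp [g]
  have hgs : ∀ j : ℕ, g (j + 1) - g j = ((n : ℚ) + m + 1) * (((m + 1 + j).choose (m + 1) : ℚ) *
      ((n + j).choose (n - 1) : ℚ)) - m * (((m + j).choose m : ℚ) *
      ((n + j).choose (n - 1) : ℚ)) := by
    intro j
    have h2 := ch_shift hn j
    have h3 := ch_up m j
    have h4 : ((m : ℚ) + 1) * ((m + 1 + j).choose (m + 1) : ℚ) =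
        (m + 1 + j) * ((m + j).choose m : ℚ) := by
      have h5 := Nat.add_one_mul_choose_eq (m + j) m
      have h5' : (m + j + 1) * (m + j).choose m = (m + j + 1).choose (m + 1) * (m + 1) := h5
      rw [show m + j + 1 = m + 1 + j by ring] at h5'
      have h6 : ((m : ℚ) + 1 + j) * ((m + j).choose m : ℚ) =
        ((m + 1 + j).choose (m + 1) : ℚ) * ((m : ℚ) + 1) := by exact_mod_cast h5'
      linear_combination -h6
    have h5 : ((m + 1 + j).choose (m + 1) : ℚ) = (m + 1 + j) * ((m + j).choose m : ℚ) / (m + 1) := by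
      field_simp
      linear_combination h4
    rw [h5]
    simp only [g]
    push_cast
    have e : ((j : ℚ) + 1) * (j + 1 + 1) / (m + 1) * ((m + (j + 1)).choose m : ℚ) *
        ((n + (j + 1)).choose (n - 1) : ℚ) = (((j : ℚ) + 1) * ((m + (j + 1)).choose m : ℚ)) *
        (((j : ℚ) + 2) * ((n + (j + 1)).choose (n - 1) : ℚ)) / (m + 1) := by
      ring
    rw [e, h2, h3]
    field_simp
    ring
  have hgn : g n = n * c n 0 * ((n + m).choose (n - 1) : ℚ) := by
    have h2 := ch_pred hn n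
    have h3 := ch_pred hn m
    have h4 : ((m + n).choose m : ℚ) = ((n + m).choose n : ℚ) := by
      rw [add_comm m n, Nat.choose_symm_add]
    have h5 : c n 0 = ((n + n).choose n : ℚ) := by
      unfold c; rw [two_mul, add_zero]
    simp only [g]
    rw [h4, h5]
    have e : (n : ℚ) * (n + 1) / (m + 1) * ((n + m).choose n : ℚ) * ((n + n).choose (n - 1) : ℚ) =
      ((n : ℚ) * ((n + m).choose n : ℚ)) * (((n : ℚ) + 1) * ((n + n).choose (n - 1) : ℚ)) /
        (m + 1) := by ring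
    rw [e, h2, ← h3]
    field_simp
  rw [sum_congr rfl fun j _ => hgs j, sum_sub_distrib, ← mul_sum, ← mul_sum, hg0, hgn,
    sub_zero] at h1
  exact h1

theorem PQ {n : ℕ} (hn : 1 ≤ n) (m : ℕ) : n * c n 0 * P n m = m * ((n + m).choose n : ℚ) * Q n m := by
  induction m with
  | zero => simp [P]
  | succ m ih =>
    have hP : P n (m + 1) = P n m + ((n + m).choose n : ℚ) * ((n + m).choose (n - 1) : ℚ) := by
      unfold P; rw [sum_range_succ]
    have h1 := ch_up n m
    have h2 := Q_rec hn m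
    rw [hP, mul_add, ih]
    push_cast
    linear_combination -((n + m).choose n : ℚ) * h2 - Q n (m + 1) * h1

theorem B_eq {n k : ℕ} (h : k ≤ n) : B n k = (k : ℚ) / n * c n k := by
  unfold B c
  rw [← Nat.choose_symm (n := 2 * n) (k := n + k) (by omega)]
  rw [show 2 * n - (n + k) = n - k by omega]

theorem sum_eq {n m : ℕ} (hn : 1 ≤ n) (hm : 1 ≤ m) :
    ∑ k ∈ Icc 1 (min n m), B n k ^ 2 * B m k = T n m / (n ^ 2 * m) := by
  have hn0 : (n : ℚ) ≠ 0 := by positivity
  have hm0 : (m : ℚ) ≠ 0 := by positivity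
  have h1 : ∀ k ∈ Icc 1 (min n m), B n k ^ 2 * B m k =
      ((k : ℚ) ^ 3 * c n k ^ 2 * c m k) / (n ^ 2 * m) := by
    intro k hk
    rw [mem_Icc] at hk
    rw [B_eq (by omega), B_eq (by omega)]
    field_simp
  rw [sum_congr rfl h1, ← sum_div]
  congr 1
  unfold T
  apply sum_subset
  · intro k hk
    rw [mem_Icc] at hk
    rw [mem_range]
    omega
  · intro k hk hk'
    rw [mem_range] at hk
    rw [mem_Icc] at hk'
    rcases Nat.eq_zero_or_pos k with h | h
    · subst h; simp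
    · rw [c_out (n := m) (by omega)]; ring

/-- **The mixed cubic sum of Shapiro Catalan triangle numbers** (full answer). -/
theorem result (n m : ℕ) (hn : 1 ≤ n) (hm : 1 ≤ m) :
    ∑ k ∈ Icc 1 (min n m), B n k ^ 2 * B m k =
      1 / 2 * ((2 * n).choose n : ℚ) ^ 2 * ((2 * m).choose m : ℚ) *
        (1 - ((n : ℚ) + 2 * m) / (min n m : ℕ) * (((n + m).choose n : ℚ))⁻¹ *
          (((n + min n m).choose n : ℚ))⁻¹ *
          ∑ j ∈ range (min n m), ((max n m + j).choose (max n m) : ℚ) *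
            ((n + j).choose (n - 1) : ℚ)) := by
  have hn0 : (n : ℚ) ≠ 0 := by positivity
  have hm0 : (m : ℚ) ≠ 0 := by positivity
  have hc1 : ((2 * n).choose n : ℚ) = c n 0 := by unfold c; rw [add_zero]
  have hc2 : ((2 * m).choose m : ℚ) = c m 0 := by unfold c; rw [add_zero]
  have hA : ((n + m).choose n : ℚ) ≠ 0 := by
    have := Nat.choose_pos (n := n + m) (k := n) (by omega)
    positivity
  have hc0 : c n 0 ≠ 0 := by
    rw [← hc1]
    have := Nat.choose_pos (n := 2 * n) (k := n) (by omega)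
    positivity
  have hT := T_eq hn m
  have h1 : T n m / ((n : ℚ) ^ 2 * m) = 1 / 2 * c n 0 ^ 2 * c m 0 *
      (1 - ((n : ℚ) + 2 * m) / m * (((n + m).choose n : ℚ))⁻¹ * (((n + m).choose n : ℚ))⁻¹ *
        P n m) := by
    have h2 : T n m = n ^ 2 * c n 0 ^ 2 * c m 0 * (m * ((n + m).choose n : ℚ) ^ 2 -
        (n + 2 * m) * P n m) / (2 * ((n + m).choose n : ℚ) ^ 2) := by
      rw [eq_div_iff (by positivity)]
      linear_combination hT
    rw [h2]
    field_simp
  rw [sum_eq hn hm, h1, hc1, hc2]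
  rcases le_total m n with h | h
  · rw [min_eq_right h, max_eq_left h]
    rfl
  · rw [min_eq_left h, max_eq_right h]
    have h3 : ((n + n).choose n : ℚ) = c n 0 := by unfold c; rw [two_mul, add_zero]
    have h4 := PQ hn m
    have h5 : P n m = m * ((n + m).choose n : ℚ) * Q n m / (n * c n 0) := by
      rw [eq_div_iff (mul_ne_zero hn0 hc0)]
      linear_combination h4
    have h6 : ∑ j ∈ range n, ((m + j).choose m : ℚ) * ((n + j).choose (n - 1) : ℚ) = Q n m := rfl
    rw [h6, h3, h5]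
    congr 1
    field_simp

end Pool.Agent.Results.MP_651eca_nt.ShapiroCubic
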